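import Pool.Agent.R695.TR.Main

/-!
# MP_0ae2e1_co: triangle Ramsey graphs with few triangles on each edge

Every finite graph in which each edge lies in at most three triangles has a 2-colouring of its
edges without monochromatic triangle.
-/

set_option autoImplicit false

namespace Pool.Agent.Results.MP_0ae2e1_co.TwoColour

open Pool.Agent.R695.TR

/-- `t(xy)`: the number of triangles of `G` containing both `x` and `y`. -/
noncomputable def numTriangles {V : Type} (G : SimpleGraph V) (x y : V) : ℕ :=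
  {T : Finset V | G.IsNClique 3 T ∧ x ∈ T ∧ y ∈ T}.ncard

/-- `G → (K₃)²`: for every colouring of the edges of `G` with two colours there is a triangle
whose three edges all receive the same colour. -/
def Arrows {V : Type} (G : SimpleGraph V) : Prop :=
  ∀ c : G.edgeSet → Bool, ∃ T : Finset V, G.IsNClique 3 T ∧
    ∃ b : Bool, ∀ e : G.edgeSet, (∀ x ∈ e.1, x ∈ T) → c e = b

theorem main (hFIN : S_FIN) (V : Type) [Finite V] (G : SimpleGraph V)
    (h : ∀ x y, G.Adj x y → numTriangles G x y ≤ 3) : ¬ Arrows G := by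
  classical
  have := Fintype.ofFinite V
  have h' : ∀ x y, G.Adj x y → {z | G.Adj x z ∧ G.Adj y z}.ncard ≤ 3 := by
    intro x y hxy
    refine le_trans ?_ (h x y hxy)
    refine Set.ncard_le_ncard_of_injOn (fun z => ({x, y, z} : Finset V)) ?_ ?_ (Set.toFinite _)
    · rintro z ⟨h1, h2⟩
      refine ⟨?_, by simp, by simp⟩
      rw [SimpleGraph.is3Clique_triple_iff]
      exact ⟨hxy, h1, h2⟩
    · rintro z ⟨h1, h2⟩ w ⟨h3, h4⟩ hzw
      have hz : z ∈ ({x, y, w} : Finset V) := by
        have hzw2 : ({x, y, z} : Finset V) = {x, y, w} := hzw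
        rw [← hzw2]; simp
      simp only [Finset.mem_insert, Finset.mem_singleton] at hz
      rcases hz with hz | hz | hz
      · exact absurd hz h1.ne.symm
      · exact absurd hz h2.ne.symm
      · exact hz
  obtain ⟨c, hc⟩ := hFIN V G h'
  intro hA
  obtain ⟨T, hT, b, hb⟩ := hA (fun e => c e.1)
  rw [SimpleGraph.is3Clique_iff] at hT
  obtain ⟨x, y, z, hxy, hxz, hyz, rfl⟩ := hT
  refine hc x y z hxy hyz hxz ⟨?_, ?_⟩
  · rw [hb ⟨s(x, y), hxy⟩ (by simp), hb ⟨s(y, z), hyz⟩ (by simp)]
  · rw [hb ⟨s(y, z), hyz⟩ (by simp), hb ⟨s(x, z), hxz⟩ (by simp)]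

/-- **No.** There is no finite graph `G` with `t(e) ≤ 3` for every edge `e` and `G → (K₃)²`. -/
theorem result : ¬ ∃ (V : Type) (_ : Finite V) (G : SimpleGraph V),
    (∀ x y, G.Adj x y → numTriangles G x y ≤ 3) ∧ Arrows G := by
  rintro ⟨V, hV, G, h, hA⟩
  exact main FIN_ok V G h hA

end Pool.Agent.Results.MP_0ae2e1_co.TwoColour
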